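import Pool.Agent.V11258.BG.Cond

namespace Pool.Agent.V11258.GP

open Set Filter Topology Cardinal

/-- every `z ∈ [0,1]` is a sum of two points of `V`, the first one in `σ` -/
def Hit (V σ : Set ℝ) : Prop := ∀ z ∈ Icc (0:ℝ) 1, ∃ x ∈ σ, x ∈ V ∧ z - x ∈ V

/-- good sequences of open sets -/
def Good (V : ℕ → Set ℝ) : Prop :=
  (∀ j, IsOpen (V j)) ∧ ∀ σ : Set ℝ, IsOpen σ → σ.Nonempty → ∀ᶠ j in atTop, Hit (V j) σ

/-- conditions -/
structure Cond where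
  /-- points -/
  Y : Set ℝ
  /-- promises -/
  W : Set (ℕ → Set ℝ)
  cY : Y.Countable
  cW : W.Countable
  dY : Dense Y
  good : ∀ V ∈ W, Good V
  act : ∀ V ∈ W, ∀ F : Finset ℝ, (F : Set ℝ) ⊆ Y → ∃ᶠ j in atTop, (F : Set ℝ) ⊆ V j

/-- the order -/
def Le (q p : Cond) : Prop := p.Y ⊆ q.Y ∧ p.W ⊆ q.W

theorem Le.refl (p : Cond) : Le p p := ⟨subset_rfl, subset_rfl⟩
theorem Le.trans {r q p : Cond} (h : Le r q) (h' : Le q p) : Le r p :=
  ⟨h'.1.trans h.1, h'.2.trans h.2⟩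

theorem finset_subset_of_mono {Y : ℕ → Set ℝ} (hY : Monotone Y) (F : Finset ℝ)
    (hF : (F : Set ℝ) ⊆ ⋃ k, Y k) : ∃ k, (F : Set ℝ) ⊆ Y k := by
  have : ∀ x : ℝ, ∃ k, x ∈ F → x ∈ Y k := by
    intro x
    by_cases hx : x ∈ F
    · obtain ⟨k, hk⟩ := mem_iUnion.mp (hF hx)
      exact ⟨k, fun _ => hk⟩
    · exact ⟨0, fun h => absurd h hx⟩
  choose k hk using this
  refine ⟨F.sup k, fun x hx => ?_⟩
  exact hY (Finset.le_sup (f := k) hx) (hk x hx)

theorem lower_bound {p : ℕ → Cond} (h : ∀ k, Le (p (k+1)) (p k)) : ∃ q, ∀ k, Le q (p k) := by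
  have hY : Monotone fun k => (p k).Y := monotone_nat_of_le_succ fun k => (h k).1
  have hW : Monotone fun k => (p k).W := monotone_nat_of_le_succ fun k => (h k).2
  refine ⟨⟨⋃ k, (p k).Y, ⋃ k, (p k).W, countable_iUnion fun k => (p k).cY,
    countable_iUnion fun k => (p k).cW, (p 0).dY.mono (subset_iUnion (fun k => (p k).Y) 0),
    ?_, ?_⟩, fun k => ⟨subset_iUnion (fun k => (p k).Y) k, subset_iUnion (fun k => (p k).W) k⟩⟩
  · intro V hV
    obtain ⟨k, hk⟩ := mem_iUnion.mp hV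
    exact (p k).good V hk
  · intro V hV F hF
    obtain ⟨k, hk⟩ := mem_iUnion.mp hV
    obtain ⟨m, hm⟩ := finset_subset_of_mono hY F hF
    exact (p (max k m)).act V (hW (le_max_left _ _) hk) F (hm.trans (hY (le_max_right _ _)))

/-- realise `z` as a sum -/
theorem extend (p : Cond) (z : ℝ) (hz : z ∈ Icc (0:ℝ) 1) :
    ∃ q, Le q p ∧ ∃ x ∈ q.Y, ∃ y ∈ q.Y, x + y = z := by
  classical
  -- the countable set of requirements
  have hF : {F : Finset ℝ | (F : Set ℝ) ⊆ p.Y}.Countable := by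
    have := p.cY.to_subtype
    have h2 : (range fun G : Finset p.Y => G.map (Function.Embedding.subtype _)).Countable :=
      countable_range _
    refine h2.mono ?_
    intro F hF
    refine ⟨F.subtype (· ∈ p.Y), ?_⟩
    ext x
    simp only [Finset.mem_map, Finset.mem_subtype, Function.Embedding.coe_subtype, Subtype.exists,
      exists_and_left, exists_prop, exists_eq_right_right]
    constructor
    · rintro ⟨h, _⟩; exact h
    · intro h; exact ⟨h, hF h⟩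
  let S : Set ((ℕ → Set ℝ) × Finset ℝ × ℕ) := p.W ×ˢ ({F : Finset ℝ | (F : Set ℝ) ⊆ p.Y} ×ˢ Set.univ)
  have hS : S.Countable := p.cW.prod (hF.prod countable_univ)
  let O : (ℕ → Set ℝ) × Finset ℝ × ℕ → Set ℝ := fun s =>
    {x | ∃ j ≥ s.2.2, (s.2.1 : Set ℝ) ⊆ s.1 j ∧ x ∈ s.1 j ∧ z - x ∈ s.1 j}
  have hopen : ∀ s ∈ S, IsOpen (O s) := by
    rintro ⟨V, F, N⟩ ⟨hV, _⟩
    have : O (V, F, N) = ⋃ j ∈ {j | N ≤ j ∧ (F : Set ℝ) ⊆ V j}, (V j ∩ (fun x => z - x) ⁻¹' V j) := by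
      ext x
      simp only [O, mem_iUnion, mem_inter_iff, mem_preimage]
      constructor
      · rintro ⟨j, h1, h2, h3, h4⟩; exact ⟨j, ⟨h1, h2⟩, h3, h4⟩
      · rintro ⟨j, ⟨h1, h2⟩, h3, h4⟩; exact ⟨j, h1, h2, h3, h4⟩
    rw [this]
    refine isOpen_biUnion fun j _ => ?_
    have hj := (p.good V hV).1 j
    exact hj.inter (hj.preimage (by fun_prop))
  have hdense : ∀ s ∈ S, Dense (O s) := by
    rintro ⟨V, F, N⟩ ⟨hV, hF, _⟩
    rw [dense_iff_inter_open]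
    intro σ hσ hne
    have h1 := (p.good V hV).2 σ hσ hne
    have h2 := p.act V hV F hF
    obtain ⟨j, hj1, hj2, hj3⟩ := (h2.and_eventually (h1.and (eventually_ge_atTop N))).exists
    obtain ⟨x, hx1, hx2, hx3⟩ := hj2 z hz
    exact ⟨x, hx1, j, hj3, hj1, hx2, hx3⟩
  have hD : Dense (⋂ s ∈ S, O s) := dense_biInter_of_isOpen hopen hS hdense
  obtain ⟨x, hx⟩ := hD.nonempty
  have hxS : ∀ s ∈ S, x ∈ O s := fun s hs => mem_iInter₂.mp hx s hs
  refine ⟨⟨p.Y ∪ {x, z - x}, p.W, p.cY.union (by simp), p.cW, p.dY.mono subset_union_left, p.good,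
    ?_⟩, ⟨subset_union_left, subset_rfl⟩, x, Or.inr (by simp), z - x, Or.inr (by simp), by ring⟩
  intro V hV F hF
  rw [Filter.frequently_atTop]
  intro N
  obtain ⟨j, hj1, hj2, hj3, hj4⟩ := hxS (V, F.filter (· ∈ p.Y), N)
    ⟨hV, fun y hy => (Finset.mem_filter.mp (Finset.mem_coe.mp hy)).2, mem_univ _⟩
  refine ⟨j, hj1, fun y hy => ?_⟩
  rcases hF hy with h | h
  · exact hj2 (Finset.mem_coe.mpr (Finset.mem_filter.mpr ⟨hy, h⟩))
  · rcases h with rfl | h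
    · exact hj3
    · rw [mem_singleton_iff] at h; rw [h]; exact hj4

/-- compactness -/
theorem exists_hit (U : ℕ → Set ℝ) (hU : ∀ n, IsOpen (U n)) (Y : Set ℝ) (hY : Dense Y)
    (hYU : ∀ a, ∀ y ∈ Y, ∃ n ≥ a, y ∈ U n) (σ : Set ℝ) (hσ : IsOpen σ) (hne : σ.Nonempty) (a : ℕ) :
    ∃ b, ∀ c ≥ b, Hit (⋃ n ∈ Ico a c, U n) σ := by
  let V : ℕ → Set ℝ := fun b => ⋃ n ∈ Ico a b, U n
  have hVo : ∀ b, IsOpen (V b) := fun b => isOpen_biUnion fun n _ => hU n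
  have hVm : Monotone V := fun b c h => biUnion_subset_biUnion_left fun n hn => ⟨hn.1, lt_of_lt_of_le hn.2 h⟩
  let O : ℕ → Set ℝ := fun b => {z | ∃ x ∈ σ, x ∈ V b ∧ z - x ∈ V b}
  have hOo : ∀ b, IsOpen (O b) := by
    intro b
    have : O b = ⋃ x ∈ σ ∩ V b, (fun z => z - x) ⁻¹' V b := by
      ext z; simp only [O, mem_iUnion, mem_inter_iff, mem_preimage]
      constructor
      · rintro ⟨x, h1, h2, h3⟩; exact ⟨x, ⟨h1, h2⟩, h3⟩
      · rintro ⟨x, ⟨h1, h2⟩, h3⟩; exact ⟨x, h1, h2, h3⟩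
    rw [this]
    exact isOpen_biUnion fun x _ => (hVo b).preimage (by fun_prop)
  have hOm : Monotone O := by
    rintro b c h z ⟨x, h1, h2, h3⟩
    exact ⟨x, h1, hVm h h2, hVm h h3⟩
  have hdW : Dense (⋃ b, V b) := by
    refine hY.mono fun y hy => ?_
    obtain ⟨n, hn, hy'⟩ := hYU a y hy
    exact mem_iUnion.mpr ⟨n+1, mem_biUnion (show n ∈ Ico a (n+1) from ⟨hn, Nat.lt_succ_self n⟩) hy'⟩
  have hoW : IsOpen (⋃ b, V b) := isOpen_iUnion hVo
  have hcov : Icc (0:ℝ) 1 ⊆ ⋃ b, O b := by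
    intro z _
    -- reflect
    have hd2 : Dense ((fun x => z - x) ⁻¹' (⋃ b, V b)) := by
      have : (fun x : ℝ => z - x) = (Homeomorph.subLeft z) := rfl
      rw [this]
      exact hdW.preimage (Homeomorph.subLeft z).isOpenMap
    have ho2 : IsOpen ((fun x => z - x) ⁻¹' (⋃ b, V b)) := hoW.preimage (by fun_prop)
    obtain ⟨x, ⟨hx1, hx2⟩⟩ := hdW.inter_open_nonempty σ hσ hne
    obtain ⟨x', hx1', hx2'⟩ := hd2.inter_open_nonempty (σ ∩ ⋃ b, V b) (hσ.inter hoW) ⟨x, hx1, hx2⟩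
    obtain ⟨b, hb⟩ := mem_iUnion.mp hx1'.2
    obtain ⟨c, hc⟩ := mem_iUnion.mp hx2'
    exact mem_iUnion.mpr ⟨max b c, x', hx1'.1, hVm (le_max_left _ _) hb, hVm (le_max_right _ _) hc⟩
  obtain ⟨b, hb⟩ := isCompact_Icc.elim_directed_cover O hOo hcov hOm.directed_le
  exact ⟨b, fun c hc z hz => hOm hc (hb hz)⟩

theorem exists_basis : ∃ B : ℕ → Set ℝ, (∀ i, IsOpen (B i)) ∧ (∀ i, (B i).Nonempty) ∧
    ∀ σ : Set ℝ, IsOpen σ → σ.Nonempty → ∃ i, B i ⊆ σ := by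
  have hb := TopologicalSpace.isBasis_countableBasis ℝ
  have hne : (TopologicalSpace.countableBasis ℝ).Nonempty := by
    obtain ⟨v, hv, _⟩ := hb.exists_subset_of_mem_open (mem_univ (0:ℝ)) isOpen_univ
    exact ⟨v, hv⟩
  obtain ⟨B, hB⟩ := (TopologicalSpace.countable_countableBasis ℝ).exists_eq_range hne
  refine ⟨B, fun i => hb.isOpen (hB ▸ ⟨i, rfl⟩), fun i => ?_, ?_⟩
  · exact TopologicalSpace.nonempty_of_mem_countableBasis (hB ▸ ⟨i, rfl⟩)
  · rintro σ hσ ⟨x, hx⟩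
    obtain ⟨v, hv, _, hvσ⟩ := hb.exists_subset_of_mem_open hx hσ
    rw [hB] at hv
    obtain ⟨i, rfl⟩ := hv
    exact ⟨i, hvσ⟩

/-- handle a sequence of covers -/
theorem handle (p : Cond) (U : ℕ → ℕ → Set ℝ) (hU : ∀ n k, IsOpen (U n k))
    (h1 : ∀ n, ∀ F : Finset ℝ, (F : Set ℝ) ⊆ p.Y → ∃ k, (F : Set ℝ) ⊆ U n k)
    (h2 : ∀ n k, ∃ y ∈ p.Y, y ∉ U n k) :
    ∃ q, Le q p ∧ ∃ u a : ℕ → ℕ, a 0 = 0 ∧ StrictMono a ∧
      (∀ m n, m < n → ∃ y ∈ q.Y, y ∈ U n (u n) ∧ y ∉ U m (u m)) ∧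
      (fun j => ⋃ n ∈ Ico (a j) (a (j+1)), U n (u n)) ∈ q.W := by
  classical
  obtain ⟨y, hy⟩ := p.cY.exists_eq_range p.dY.nonempty
  have hyY : ∀ i, y i ∈ p.Y := fun i => hy ▸ ⟨i, rfl⟩
  choose! k hk using h1
  choose w hw1 hw2 using h2
  obtain ⟨E, hE0, hEs⟩ : ∃ E : ℕ → Finset ℝ, E 0 = {y 0} ∧
      ∀ n, E (n+1) = insert (y (n+1)) (insert (w n (k n (E n))) (E n)) :=
    ⟨fun n => Nat.rec {y 0} (fun n E => insert (y (n+1)) (insert (w n (k n E)) E)) n, rfl,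
      fun n => rfl⟩
  have hEm : Monotone E := monotone_nat_of_le_succ fun n => by
    rw [hEs]
    exact (Finset.subset_insert _ _).trans (Finset.subset_insert _ _)
  have hEy : ∀ n, y n ∈ E n := by
    intro n
    cases n with
    | zero => rw [hE0]; simp
    | succ n => rw [hEs]; exact Finset.mem_insert_self _ _
  have hEY : ∀ n, (E n : Set ℝ) ⊆ p.Y := by
    intro n
    induction n with
    | zero => rw [hE0]; simpa using hyY 0
    | succ n ih =>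
      rw [hEs]
      intro x hx
      rcases Finset.mem_insert.mp (Finset.mem_coe.mp hx) with rfl | hx
      · exact hyY _
      · rcases Finset.mem_insert.mp hx with rfl | hx
        · exact hw1 _ _
        · exact ih hx
  let u : ℕ → ℕ := fun n => k n (E n)
  have hu : ∀ n, (E n : Set ℝ) ⊆ U n (u n) := fun n => hk n (E n) (hEY n)
  have hwE : ∀ m n, m < n → w m (u m) ∈ E n := by
    intro m n hmn
    refine hEm (Nat.succ_le_of_lt hmn) ?_
    show w m (u m) ∈ E (m+1)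
    rw [hEs]
    exact Finset.mem_insert_of_mem (Finset.mem_insert_self _ _)
  obtain ⟨B, hB1, hB2, hB3⟩ := exists_basis
  have hYU : ∀ a, ∀ x ∈ p.Y, ∃ n ≥ a, x ∈ U n (u n) := by
    intro a x hx
    rw [hy] at hx
    obtain ⟨i, rfl⟩ := hx
    exact ⟨max a i, le_max_left _ _, hu _ (Finset.mem_coe.mpr (hEm (le_max_right a i) (hEy i)))⟩
  -- next block end
  have hnext : ∀ a j : ℕ, ∃ b, a < b ∧ ∀ i < j, Hit (⋃ n ∈ Ico a b, U n (u n)) (B i) := by
    intro a j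
    choose b hb using fun i => exists_hit (fun n => U n (u n)) (fun n => hU _ _) p.Y p.dY hYU
      (B i) (hB1 i) (hB2 i) a
    refine ⟨max (a+1) ((Finset.range j).sup b), lt_of_lt_of_le (Nat.lt_succ_self a) (le_max_left _ _),
      fun i hi => hb i _ ?_⟩
    exact (Finset.le_sup (f := b) (Finset.mem_range.mpr hi)).trans (le_max_right _ _)
  choose nx hnx1 hnx2 using hnext
  let a : ℕ → ℕ := fun j => Nat.rec 0 (fun j a => nx a j) j
  have has : ∀ j, a (j+1) = nx (a j) j := fun j => rfl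
  have ham : StrictMono a := strictMono_nat_of_lt_succ fun j => by rw [has]; exact hnx1 _ _
  let V : ℕ → Set ℝ := fun j => ⋃ n ∈ Ico (a j) (a (j+1)), U n (u n)
  have hVg : Good V := by
    refine ⟨fun j => isOpen_biUnion fun n _ => hU _ _, fun σ hσ hne => ?_⟩
    obtain ⟨i, hi⟩ := hB3 σ hσ hne
    filter_upwards [eventually_gt_atTop i] with j hj z hz
    obtain ⟨x, hx1, hx2⟩ := hnx2 (a j) j i hj z hz
    exact ⟨x, hi hx1, hx2⟩
  have hVa : ∀ F : Finset ℝ, (F : Set ℝ) ⊆ p.Y → ∃ᶠ j in atTop, (F : Set ℝ) ⊆ V j := by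
    intro F hF
    have : ∀ x : ℝ, ∃ i, x ∈ F → y i = x := by
      intro x
      by_cases hx : x ∈ F
      · have := hF hx
        rw [hy] at this
        obtain ⟨i, hi⟩ := this
        exact ⟨i, fun _ => hi⟩
      · exact ⟨0, fun h => absurd h hx⟩
    choose i hi using this
    refine Eventually.frequently ?_
    filter_upwards [eventually_ge_atTop (F.sup i)] with j hj x hx
    refine mem_biUnion (show a j ∈ Ico (a j) (a (j+1)) from ⟨le_rfl, ham (Nat.lt_succ_self j)⟩) ?_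
    refine hu _ ?_
    have h3 : i x ≤ a j := (Finset.le_sup (f := i) hx).trans (hj.trans ham.le_apply)
    have h4 := hEm h3 (hEy (i x))
    rw [hi x hx] at h4
    exact h4
  refine ⟨⟨p.Y, insert V p.W, p.cY, p.cW.insert V, p.dY, ?_, ?_⟩, ⟨subset_rfl, subset_insert _ _⟩,
    u, a, rfl, ham, ?_, mem_insert _ _⟩
  · rintro V' (rfl | h)
    · exact hVg
    · exact p.good V' h
  · rintro V' (rfl | h)
    · exact hVa
    · exact p.act V' h
  · intro m n hmn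
    exact ⟨w m (u m), hw1 _ _, hu n (hwE m n hmn), hw2 _ _⟩

/-- The tasks. -/
abbrev Task : Type := (ℕ → ℕ → {s : Set ℝ // MeasurableSet s}) × ℝ

theorem mk_borel : #{s : Set ℝ // MeasurableSet s} ≤ 𝔠 := by
  obtain ⟨b, hb, hb'⟩ := (inferInstance : MeasurableSpace.CountablyGenerated ℝ).isCountablyGenerated
  have h1 : #b ≤ 𝔠 := (le_aleph0_iff_set_countable.mpr hb).trans aleph0_le_continuum
  have h2 := MeasurableSpace.cardinal_measurableSet_le_continuum h1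
  rw [← hb'] at h2
  exact h2

theorem mk_task : #Task ≤ 𝔠 := by
  have h1 : #(ℕ → ℕ → {s : Set ℝ // MeasurableSet s}) ≤ 𝔠 := by
    simp only [mk_pi, prod_const, lift_id, mk_nat]
    calc (#{s : Set ℝ // MeasurableSet s} ^ ℵ₀) ^ ℵ₀ ≤ (𝔠 ^ ℵ₀) ^ ℵ₀ :=
          Cardinal.power_le_power_right (Cardinal.power_le_power_right mk_borel)
      _ = 𝔠 := by rw [continuum_power_aleph0, continuum_power_aleph0]
  calc #Task = #(ℕ → ℕ → {s : Set ℝ // MeasurableSet s}) * #ℝ := by simp [Cardinal.mk_prod]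
    _ ≤ 𝔠 * 𝔠 := mul_le_mul' h1 (by rw [mk_real])
    _ = 𝔠 := continuum_mul_self

theorem main (CH : (𝔠 : Cardinal.{0}) = ℵ₁) : ∃ L : Set ℝ,
    (∀ z ∈ Icc (0:ℝ) 1, ∃ x ∈ L, ∃ y ∈ L, x + y = z) ∧
    ∀ U : ℕ → ℕ → Set ℝ, (∀ n k, IsOpen (U n k)) →
      (∀ n, ∀ F : Finset ℝ, (F : Set ℝ) ⊆ L → ∃ k, (F : Set ℝ) ⊆ U n k) →
      (∀ n k, ¬ L ⊆ U n k) →
      ∃ u a : ℕ → ℕ, a 0 = 0 ∧ StrictMono a ∧
        (∀ m n, m < n → ∃ y ∈ L, y ∈ U n (u n) ∧ y ∉ U m (u m)) ∧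
        ∀ F : Finset ℝ, (F : Set ℝ) ⊆ L →
          ∃ᶠ j in atTop, (F : Set ℝ) ⊆ ⋃ n ∈ Ico (a j) (a (j+1)), U n (u n) := by
  classical
  obtain ⟨r, wo, hr⟩ := Cardinal.exists_ord_eq Task
  have hcount : ∀ i : Task, {j | r j i}.Countable := by
    intro i
    rw [← le_aleph0_iff_set_countable, ← lt_aleph_one_iff, ← CH]
    exact lt_of_lt_of_le (Cardinal.card_typein_lt i hr) mk_task
  let D : Task → Cond → Prop := fun t q =>
    (t.2 ∈ Icc (0:ℝ) 1 → ∃ x ∈ q.Y, ∃ y ∈ q.Y, x + y = t.2) ∧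
    ((∀ n k, IsOpen (t.1 n k).1) →
      (∃ n, ∃ F : Finset ℝ, (F : Set ℝ) ⊆ q.Y ∧ ∀ k, ¬ (F : Set ℝ) ⊆ (t.1 n k).1) ∨
      (∃ n k, q.Y ⊆ (t.1 n k).1) ∨
      ∃ u a : ℕ → ℕ, a 0 = 0 ∧ StrictMono a ∧
        (∀ m n, m < n → ∃ y ∈ q.Y, y ∈ (t.1 n (u n)).1 ∧ y ∉ (t.1 m (u m)).1) ∧
        (fun j => ⋃ n ∈ Ico (a j) (a (j+1)), (t.1 n (u n)).1) ∈ q.W)
  have hD : ∀ t p, ∃ q, Le q p ∧ D t q := by
    intro t p
    obtain ⟨p', hp', hz⟩ : ∃ p', Le p' p ∧ (t.2 ∈ Icc (0:ℝ) 1 → ∃ x ∈ p'.Y, ∃ y ∈ p'.Y, x + y = t.2) := by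
      by_cases h : t.2 ∈ Icc (0:ℝ) 1
      · obtain ⟨q, h1, h2⟩ := extend p t.2 h
        exact ⟨q, h1, fun _ => h2⟩
      · exact ⟨p, Le.refl p, fun h' => absurd h' h⟩
    by_cases ho : ∀ n k, IsOpen (t.1 n k).1
    · by_cases ha : ∃ n, ∃ F : Finset ℝ, (F : Set ℝ) ⊆ p'.Y ∧ ∀ k, ¬ (F : Set ℝ) ⊆ (t.1 n k).1
      · exact ⟨p', hp', hz, fun _ => Or.inl ha⟩
      · by_cases hb : ∃ n k, p'.Y ⊆ (t.1 n k).1
        · exact ⟨p', hp', hz, fun _ => Or.inr (Or.inl hb)⟩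
        · push Not at ha hb
          obtain ⟨q, hq, hc⟩ := handle p' (fun n k => (t.1 n k).1) ho ha
            (fun n k => Set.not_subset.mp (hb n k))
          refine ⟨q, hq.trans hp', fun h => ?_, fun _ => Or.inr (Or.inr hc)⟩
          obtain ⟨x, hx, y, hy, e⟩ := hz h
          exact ⟨x, hq.1 hx, y, hq.1 hy, e⟩
    · exact ⟨p', hp', hz, fun h => absurd h ho⟩
  have : Nonempty Cond := ⟨⟨range ((↑) : ℚ → ℝ), ∅, countable_range _, countable_empty,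
    Rat.denseRange_cast, fun V h => absurd h (notMem_empty V), fun V h => absurd h (notMem_empty V)⟩⟩
  obtain ⟨g, hg1, hg2⟩ := BG.generic Le Le.refl (fun _ _ _ h h' => h.trans h')
    (fun p h => lower_bound h) r hcount D hD
  let L : Set ℝ := ⋃ t, (g t).Y
  have hYL : ∀ t, (g t).Y ⊆ L := fun t => subset_iUnion (fun t => (g t).Y) t
  have hcomp : ∀ s t, Le (g s) (g t) ∨ Le (g t) (g s) := by
    intro s t
    rcases trichotomous_of r s t with h | h | h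
    · exact Or.inr (hg2 s t h)
    · subst h; exact Or.inl (Le.refl _)
    · exact Or.inl (hg2 t s h)
  have hfin : ∀ F : Finset ℝ, (F : Set ℝ) ⊆ L → ∃ s, (F : Set ℝ) ⊆ (g s).Y := by
    intro F
    induction F using Finset.induction_on with
    | empty => intro _; exact ⟨(fun _ _ => ⟨∅, MeasurableSet.empty⟩, 0), by simp⟩
    | @insert x F hx ih =>
      intro hF
      rw [Finset.coe_insert, insert_subset_iff] at hF
      obtain ⟨s, hs⟩ := ih hF.2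
      obtain ⟨t, ht⟩ := mem_iUnion.mp hF.1
      rcases hcomp s t with h | h
      · exact ⟨s, by rw [Finset.coe_insert, insert_subset_iff]; exact ⟨h.1 ht, hs⟩⟩
      · exact ⟨t, by rw [Finset.coe_insert, insert_subset_iff]; exact ⟨ht, hs.trans h.1⟩⟩
  refine ⟨L, ?_, ?_⟩
  · intro z hz
    obtain ⟨x, hx, y, hy, e⟩ := (hg1 (fun _ _ => ⟨∅, MeasurableSet.empty⟩, z)).1 hz
    exact ⟨x, hYL _ hx, y, hYL _ hy, e⟩
  · intro U hU hω hne
    let τ : ℕ → ℕ → {s : Set ℝ // MeasurableSet s} := fun n k => ⟨U n k, (hU n k).measurableSet⟩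
    have hz : ∀ z : ℝ, _ := fun z => (hg1 (τ, z)).2 hU
    by_cases hc : ∃ z : ℝ, ∃ u a : ℕ → ℕ, a 0 = 0 ∧ StrictMono a ∧
        (∀ m n, m < n → ∃ y ∈ (g (τ, z)).Y, y ∈ U n (u n) ∧ y ∉ U m (u m)) ∧
        (fun j => ⋃ n ∈ Ico (a j) (a (j+1)), U n (u n)) ∈ (g (τ, z)).W
    · obtain ⟨z, u, a, h0, hm, hd, hW⟩ := hc
      refine ⟨u, a, h0, hm, fun m n hmn => ?_, fun F hF => ?_⟩
      · obtain ⟨y, hy, h⟩ := hd m n hmn
        exact ⟨y, hYL _ hy, h⟩
      · obtain ⟨s, hs⟩ := hfin F hF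
        rcases hcomp s (τ, z) with h | h
        · exact (g s).act _ (h.2 hW) F hs
        · exact (g (τ, z)).act _ hW F (hs.trans h.1)
    · exfalso
      push Not at hc
      have hb : ∀ z : ℝ, ∃ nk : ℕ × ℕ, (g (τ, z)).Y ⊆ U nk.1 nk.2 := by
        intro z
        rcases hz z with ⟨n, F, hF, hk⟩ | ⟨n, k, h⟩ | ⟨u, a, h0, hm, hd, hW⟩
        · obtain ⟨k, hk'⟩ := hω n F (hF.trans (hYL _))
          exact absurd hk' (hk k)
        · exact ⟨(n, k), h⟩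
        · exact absurd hW (hc z u a h0 hm hd)
      choose f hf using hb
      obtain ⟨nk, hnk⟩ : ∃ nk : ℕ × ℕ, ¬ (f ⁻¹' {nk}).Countable := by
        by_contra hcon
        push Not at hcon
        have : (⋃ nk, f ⁻¹' {nk}).Countable := countable_iUnion hcon
        have h3 : (⋃ nk, f ⁻¹' {nk}) = Set.univ := by ext x; simp
        rw [h3] at this
        exact Cardinal.not_countable_real this
      refine hne nk.1 nk.2 fun y hy => ?_
      obtain ⟨s, hs⟩ := mem_iUnion.mp hy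
      have h4 : {z : ℝ | r (τ, z) s}.Countable := by
        have : (fun z : ℝ => ((τ, z) : Task)) ⁻¹' {j | r j s} = {z : ℝ | r (τ, z) s} := rfl
        rw [← this]
        exact (hcount s).preimage (fun z z' e => (Prod.mk.inj e).2)
      obtain ⟨z, hz1, hz2⟩ : ∃ z, z ∈ f ⁻¹' {nk} ∧ ¬ r (τ, z) s := by
        by_contra hcon
        push Not at hcon
        exact hnk (h4.mono fun z hz => hcon z hz)
      have hle : Le (g (τ, z)) (g s) := by
        rcases trichotomous_of r (τ, z) s with h | h | h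
        · exact absurd h hz2
        · rw [h]; exact Le.refl _
        · exact hg2 s (τ, z) h
      have h5 := hf z (hle.1 hs)
      have h6 : f z = nk := hz1
      rw [h6] at h5
      exact h5

end Pool.Agent.V11258.GP
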