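import Pool.Agent.V11258.GP.Main

namespace Pool.Agent.V11258.GP

open Set Filter Topology Cardinal MeasureTheory
open scoped Pointwise

/-- Open `ω`-covers of second countable spaces have countable `ω`-subcovers. -/
theorem countable_subcover {X : Type} [TopologicalSpace X] [SecondCountableTopology X]
    (𝒰 : Set (Set X)) (ho : ∀ U ∈ 𝒰, IsOpen U) (hω : ∀ F : Finset X, ∃ U ∈ 𝒰, (F : Set X) ⊆ U) :
    ∃ 𝒱 ⊆ 𝒰, 𝒱.Countable ∧ ∀ F : Finset X, ∃ U ∈ 𝒱, (F : Set X) ⊆ U := by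
  classical
  let B := TopologicalSpace.countableBasis X
  have hB := TopologicalSpace.isBasis_countableBasis X
  let T : Set (Set (Set X)) := {t | t.Finite ∧ t ⊆ B}
  have hT : T.Countable := Set.countable_ofPred_finite_subset (TopologicalSpace.countable_countableBasis X)
  have : ∀ t : Set (Set X), ∃ V, (∃ U ∈ 𝒰, ⋃₀ t ⊆ U) → V ∈ 𝒰 ∧ ⋃₀ t ⊆ V := by
    intro t
    by_cases h : ∃ U ∈ 𝒰, ⋃₀ t ⊆ U
    · obtain ⟨U, h1, h2⟩ := h
      exact ⟨U, fun _ => ⟨h1, h2⟩⟩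
    · exact ⟨∅, fun h' => absurd h' h⟩
  choose V hV using this
  refine ⟨V '' {t | t ∈ T ∧ ∃ U ∈ 𝒰, ⋃₀ t ⊆ U}, ?_, ?_, ?_⟩
  · rintro _ ⟨t, ⟨_, ht⟩, rfl⟩
    exact (hV t ht).1
  · exact (hT.mono fun t ht => ht.1).image V
  · intro F
    obtain ⟨U, hU, hFU⟩ := hω F
    have : ∀ x : X, ∃ b, x ∈ F → b ∈ B ∧ x ∈ b ∧ b ⊆ U := by
      intro x
      by_cases hx : x ∈ F
      · obtain ⟨b, h1, h2, h3⟩ := hB.exists_subset_of_mem_open (hFU hx) (ho U hU)
        exact ⟨b, fun _ => ⟨h1, h2, h3⟩⟩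
      · exact ⟨∅, fun h => absurd h hx⟩
    choose b hb using this
    let t : Set (Set X) := ((F.image b : Finset (Set X)) : Set (Set X))
    have ht1 : t ∈ T := by
      refine ⟨Finset.finite_toSet _, ?_⟩
      intro s hs
      obtain ⟨x, hx, rfl⟩ := Finset.mem_image.mp (Finset.mem_coe.mp hs)
      exact (hb x hx).1
    have ht2 : ⋃₀ t ⊆ U := by
      refine Set.sUnion_subset fun s hs => ?_
      obtain ⟨x, hx, rfl⟩ := Finset.mem_image.mp (Finset.mem_coe.mp hs)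
      exact (hb x hx).2.2
    refine ⟨V t, ⟨t, ⟨ht1, U, hU, ht2⟩, rfl⟩, ?_⟩
    intro x hx
    exact (hV t ⟨U, hU, ht2⟩).2 ⟨b x, Finset.mem_coe.mpr (Finset.mem_image.mpr ⟨x, hx, rfl⟩),
      (hb x hx).2.1⟩

/-- small neighbourhoods of finite sets -/
theorem small_nhd (F : Finset ℝ) (ε : ENNReal) (hε : 0 < ε) :
    ∃ V : Set ℝ, IsOpen V ∧ (F : Set ℝ) ⊆ V ∧ volume (V + V) < ε := by
  classical
  obtain ⟨K, hK1, hK2, hK3⟩ : ∃ W : Set ℝ, ((F : Set ℝ) + (F : Set ℝ)) ⊆ W ∧ IsOpen W ∧ volume W < ε := by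
    have h0 : volume ((F : Set ℝ) + (F : Set ℝ)) = 0 := by
      rw [← Finset.coe_add]
      exact (Finset.finite_toSet _).measure_zero _
    obtain ⟨W, h1, h2, h3⟩ := Set.exists_isOpen_lt_of_lt ((F : Set ℝ) + (F : Set ℝ)) ε (by rw [h0]; exact hε)
    exact ⟨W, h1, h2, h3⟩
  have hc : IsCompact ((F : Set ℝ) + (F : Set ℝ)) := by
    rw [← Finset.coe_add]
    exact (Finset.finite_toSet _).isCompact
  obtain ⟨V0, hV0, hV0'⟩ := compact_open_separated_add_right hc hK2 hK1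
  obtain ⟨V1, hV1o, hV1z, hV1⟩ := exists_open_nhds_zero_add_subset hV0
  refine ⟨(F : Set ℝ) + V1, hV1o.add_left, ?_, ?_⟩
  · intro x hx
    exact ⟨x, hx, 0, hV1z, by simp⟩
  · refine lt_of_le_of_lt (measure_mono ?_) hK3
    refine subset_trans ?_ hV0'
    rw [add_add_add_comm]
    exact add_subset_add_left hV1

theorem sel (CH : (𝔠 : Cardinal.{0}) = ℵ₁) : ∃ L : Set ℝ,
    (∀ 𝒰 : ℕ → Set (Set L), (∀ n, ∀ U ∈ 𝒰 n, IsOpen U) → (∀ n, Set.univ ∉ 𝒰 n) →
      (∀ n, ∀ F : Finset L, ∃ U ∈ 𝒰 n, (F : Set L) ⊆ U) →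
      ∃ (U : ℕ → Set L) (a : ℕ → ℕ), (∀ n, U n ∈ 𝒰 n) ∧ Function.Injective U ∧ a 0 = 0 ∧
        StrictMono a ∧ ∀ F : Finset L, ∃ᶠ j in atTop, (F : Set L) ⊆ ⋃ n ∈ Ico (a j) (a (j+1)), U n) ∧
    (∃ 𝒰 : ℕ → Set (Set L), (∀ n, ∀ U ∈ 𝒰 n, IsOpen U) ∧ (∀ n, Set.univ ∉ 𝒰 n) ∧
      (∀ n, ∀ F : Finset L, ∃ U ∈ 𝒰 n, (F : Set L) ⊆ U) ∧
      ∀ U : ℕ → Set L, (∀ n, U n ∈ 𝒰 n) → ¬ ∀ F : Finset L, ∃ n, (F : Set L) ⊆ U n) := by
  classical
  obtain ⟨L, hL1, hL2⟩ := main CH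
  refine ⟨L, ?_, ?_⟩
  · intro 𝒰 ho hu hω
    choose 𝒱 hs hc hω' using fun n => countable_subcover (𝒰 n) (ho n) (hω n)
    have hne : ∀ n, (𝒱 n).Nonempty := fun n => by
      obtain ⟨U, hU, _⟩ := hω' n ∅
      exact ⟨U, hU⟩
    choose V hV using fun n => (hc n).exists_eq_range (hne n)
    have hVm : ∀ n k, V n k ∈ 𝒱 n := fun n k => hV n ▸ ⟨k, rfl⟩
    have hVo : ∀ n k, ∃ W : Set ℝ, IsOpen W ∧ Subtype.val ⁻¹' W = V n k := fun n k =>
      isOpen_induced_iff.mp (ho n _ (hs n (hVm n k)))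
    choose W hW1 hW2 using hVo
    have hmem : ∀ n k (x : L), x ∈ V n k ↔ x.1 ∈ W n k := by
      intro n k x; rw [← hW2]; rfl
    obtain ⟨u, a, h0, hm, hd, hF⟩ := hL2 W hW1 (by
        intro n F hF
        obtain ⟨U, hU, hFU⟩ := hω' n (F.attach.image fun x : F => (⟨x.1, hF (Finset.mem_coe.mpr x.2)⟩ : L))
        rw [hV] at hU
        obtain ⟨k, rfl⟩ := hU
        refine ⟨k, fun x hx => ?_⟩
        have : (⟨x, hF hx⟩ : L) ∈ V n k := hFU (by
          rw [Finset.mem_coe, Finset.mem_image]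
          exact ⟨⟨x, hx⟩, Finset.mem_attach _ _, rfl⟩)
        exact (hmem n k _).mp this) (by
        intro n k hLk
        apply hu n
        have : V n k = Set.univ := by
          ext x
          simp only [mem_univ, iff_true]
          exact (hmem n k x).mpr (hLk x.2)
        rw [← this]
        exact hs n (hVm n k))
    refine ⟨fun n => V n (u n), a, fun n => hs n (hVm n _), ?_, h0, hm, ?_⟩
    · have key : ∀ m n, m < n → V m (u m) ≠ V n (u n) := by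
        intro m n hmn e
        obtain ⟨y, hy, hy1, hy2⟩ := hd m n hmn
        have h3 : (⟨y, hy⟩ : L) ∈ V n (u n) := (hmem _ _ _).mpr hy1
        rw [← e] at h3
        exact hy2 ((hmem _ _ _).mp h3)
      intro m n e
      rcases lt_trichotomy m n with h | h | h
      · exact absurd e (key m n h)
      · exact h
      · exact absurd e.symm (key n m h)
    · intro F
      have h3 := hF (F.map (Function.Embedding.subtype _)) (by
        intro x hx
        obtain ⟨y, _, rfl⟩ := Finset.mem_map.mp (Finset.mem_coe.mp hx)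
        exact y.2)
      refine h3.mono fun j hj x hx => ?_
      have h4 := hj (Finset.mem_coe.mpr (Finset.mem_map.mpr ⟨x, hx, rfl⟩))
      simp only [mem_iUnion] at h4 ⊢
      obtain ⟨n, hn, h5⟩ := h4
      exact ⟨n, hn, (hmem _ _ _).mpr h5⟩
  · let ε : ℕ → ENNReal := fun n => 4⁻¹ * 2⁻¹ ^ n
    have hε0 : ∀ n, 0 < ε n := fun n => by
      simp only [ε]
      exact ENNReal.mul_pos (by simp) (by simp)
    have hsum : ∑' n, ε n < 1 := by
      simp only [ε]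
      rw [ENNReal.tsum_mul_left, ENNReal.tsum_geometric_two]
      rw [show (4:ENNReal) = 2 * 2 by norm_num, ENNReal.mul_inv (by simp) (by simp), mul_assoc,
        ENNReal.inv_mul_cancel (by simp) (by simp), mul_one]
      exact ENNReal.one_half_lt_one
    have hsub : Icc (0:ℝ) 1 ⊆ L + L := by
      intro z hz
      obtain ⟨x, hx, y, hy, e⟩ := hL1 z hz
      exact ⟨x, hx, y, hy, e⟩
    refine ⟨fun n => {U | ∃ V : Set ℝ, IsOpen V ∧ volume (V + V) < ε n ∧ U = Subtype.val ⁻¹' V},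
      ?_, ?_, ?_, ?_⟩
    · rintro n U ⟨V, hV, _, rfl⟩
      exact hV.preimage continuous_subtype_val
    · rintro n ⟨V, _, hV, e⟩
      have hLV : L ⊆ V := fun x hx => by
        have : (⟨x, hx⟩ : L) ∈ (Set.univ : Set L) := mem_univ _
        rw [e] at this
        exact this
      have h1 : (1:ENNReal) ≤ volume (V + V) := by
        have : volume (Icc (0:ℝ) 1) = 1 := by simp
        rw [← this]
        exact measure_mono (hsub.trans (add_subset_add hLV hLV))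
      have h2 : ε n ≤ ∑' n, ε n := ENNReal.le_tsum n
      exact absurd (h1.trans_lt (hV.trans_le h2)) (not_lt.mpr hsum.le)
    · intro n F
      obtain ⟨V, hV1, hV2, hV3⟩ := small_nhd (F.map (Function.Embedding.subtype _)) (ε n) (hε0 n)
      refine ⟨_, ⟨V, hV1, hV3, rfl⟩, fun x hx => ?_⟩
      exact hV2 (Finset.mem_coe.mpr (Finset.mem_map.mpr ⟨x, hx, rfl⟩))
    · intro U hU hcov
      choose V hV1 hV2 hV3 using hU
      have h1 : Icc (0:ℝ) 1 ⊆ ⋃ n, (V n + V n) := by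
        intro z hz
        obtain ⟨x, hx, y, hy, e⟩ := hL1 z hz
        obtain ⟨n, hn⟩ := hcov {⟨x, hx⟩, ⟨y, hy⟩}
        have hx' : (⟨x, hx⟩ : L) ∈ U n := hn (by simp)
        have hy' : (⟨y, hy⟩ : L) ∈ U n := hn (by simp)
        rw [hV3] at hx' hy'
        exact mem_iUnion.mpr ⟨n, x, hx', y, hy', e⟩
      have h2 : (1:ENNReal) ≤ ∑' n, ε n := by
        have : volume (Icc (0:ℝ) 1) = 1 := by simp
        rw [← this]
        refine (measure_mono h1).trans ((measure_iUnion_le _).trans ?_)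
        exact ENNReal.tsum_le_tsum fun n => (hV2 n).le
      exact absurd hsum (not_lt.mpr h2)

end Pool.Agent.V11258.GP
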